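import Pool.Agent.Q302.EU.Pick

/-! # The diagonal set -/

set_option autoImplicit false

open Set Topology Filter

namespace Pool.Agent.Q302.EU

theorem wgt_union_le {h : ℕ → ℝ} (hh : ∀ i, 0 ≤ h i) {A B C : Set ℕ} {n b c : ℕ} (hb : b ≤ n)
    (hc : c ≤ n) (hsub : ∀ i < n, i ∈ A → i ∈ B ∨ (i < b ∧ i ∈ C) ∨ i < c) :
    wgt h A n ≤ wgt h B n + wgt h C b + tot h c := by
  classical
  have h1 : wgt h C b = wgt h (C ∩ Iio b) n := by
    rw [wgt, wgt, ← Finset.sum_subset (Finset.range_mono hb)]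
    · refine Finset.sum_congr rfl fun i hi => ?_
      have : i < b := Finset.mem_range.1 hi
      simp [Set.indicator_apply, this]
    · intro i _ hi
      have : ¬ i < b := fun h => hi (Finset.mem_range.2 h)
      simp [Set.indicator_apply, this]
  have h2 : tot h c = wgt h (Iio c) n := by
    rw [wgt, tot, ← Finset.sum_subset (Finset.range_mono hc)]
    · refine Finset.sum_congr rfl fun i hi => ?_
      have : i < c := Finset.mem_range.1 hi
      simp [Set.indicator_apply, this]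
    · intro i _ hi
      have : ¬ i < c := fun h => hi (Finset.mem_range.2 h)
      simp [Set.indicator_apply, this]
  rw [h1, h2, wgt, wgt, wgt, wgt, ← Finset.sum_add_distrib, ← Finset.sum_add_distrib]
  refine Finset.sum_le_sum fun i hi => ?_
  have hi' := Finset.mem_range.1 hi
  have h3 : ∀ s : Set ℕ, 0 ≤ s.indicator h i := fun s => Set.indicator_nonneg (fun _ _ => hh _) _
  by_cases hA : i ∈ A
  · rw [Set.indicator_of_mem hA]
    rcases hsub i hi' hA with h4 | h4 | h4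
    · have := Set.indicator_of_mem h4 h
      linarith [h3 (C ∩ Iio b), h3 (Iio c)]
    · have := Set.indicator_of_mem (show i ∈ C ∩ Iio b from ⟨h4.2, h4.1⟩) h
      linarith [h3 B, h3 (Iio c)]
    · have := Set.indicator_of_mem (show i ∈ Iio c from h4) h
      linarith [h3 B, h3 (C ∩ Iio b)]
  · rw [Set.indicator_of_notMem hA]
    linarith [h3 B, h3 (Iio c), h3 (C ∩ Iio b)]

/-- The necessary condition. -/
theorem star {g : ℕ → ℕ} (hg : Tendsto g atTop atTop) {f : ℝ → ℝ}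
    (fpos : ∀ x, 0 < x → 0 < f x) (fmono : ∀ x y, 0 ≤ x → x ≤ y → f x ≤ f y)
    {h : ℕ → ℝ} (hh : ∀ i, 0 ≤ h i) (hinf : Tendsto (tot h) atTop atTop)
    (hsm : Tendsto (fun n => h n / tot h (n + 1)) atTop (𝓝 0))
    (hsub : ∀ A : Set ℕ, Tendsto (fun n => wgt h A n / tot h n) atTop (𝓝 0) →
      Tendsto (fun n => f (wgt (fun _ => 1) A n) / f (g n)) atTop (𝓝 0)) :
    ∀ ε > 0, ∃ N : ℕ, 1 ≤ N ∧ ∀ᶠ n : ℕ in atTop, f (n / N) ≤ ε * f (g n) := by
  by_contra hcon
  push Not at hcon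
  obtain ⟨ε, hε, hcon⟩ := hcon
  have hfr : ∀ N : ℕ, 1 ≤ N → ∃ᶠ n : ℕ in atTop, ε * f (g n) < f (n / N) := by
    intro N hN
    exact hcon N hN
  choose A hA1 hA2 using fun j : ℕ => exists_pick hh hinf hsm (j + 1) (Nat.succ_pos j)
  -- the next point
  have hnext : ∀ j m : ℕ, ∃ n : ℕ, m < n ∧ ε * f (g n) < f ((n : ℝ) / ((4 * (j + 1) : ℕ) : ℝ)) ∧
      (∀ n' ≥ n, wgt h (A j) n' ≤ 2 / ((j + 1 : ℕ) : ℝ) * tot h n') ∧
      (∀ n' ≥ n, wgt h (A (j + 1)) n' ≤ 2 / ((j + 1 + 1 : ℕ) : ℝ) * tot h n') ∧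
      ((j : ℝ) + 1) * tot h m ≤ tot h n ∧ 4 * (j + 1) * (m + 2) ≤ n := by
    intro j m
    obtain ⟨n1, hn1⟩ := (hA2 j).exists_forall_of_atTop
    obtain ⟨n2, hn2⟩ := (hA2 (j + 1)).exists_forall_of_atTop
    have e1 := hinf.eventually_ge_atTop (((j : ℝ) + 1) * tot h m)
    have e2 := eventually_ge_atTop (max (m + 1) (max n1 (max n2 (4 * (j + 1) * (m + 2)))))
    obtain ⟨n, hn, hn3, hn4⟩ := ((hfr (4 * (j + 1)) (by omega)).and_eventually (e1.and e2)).exists
    simp only [ge_iff_le, max_le_iff] at hn4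
    exact ⟨n, by omega, hn, fun n' h' => hn1 n' (by omega), fun n' h' => hn2 n' (by omega), hn3,
      hn4.2.2.2⟩
  choose next hx1 hx2 hx3 hx4 hx5 hx6 using hnext
  obtain ⟨ns, hns⟩ : ∃ ns : ℕ → ℕ, ∀ j, ns (j + 1) = next (j + 1) (ns j) :=
    ⟨fun j => Nat.rec (next 0 0) (fun j m => next (j + 1) m) j, fun j => rfl⟩
  have hmono : StrictMono ns := strictMono_nat_of_lt_succ fun j => by
    rw [hns]; exact hx1 _ _
  set D : Set ℕ := {i | ∃ j, ns j ≤ i ∧ i < ns (j + 1) ∧ i ∈ A (j + 1)} with hD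
  -- the diagonal set is light
  have hlight : Tendsto (fun n => wgt h D n / tot h n) atTop (𝓝 0) := by
    rw [Metric.tendsto_nhds]
    intro δ hδ
    obtain ⟨J, hJ⟩ := exists_nat_gt (5 / δ)
    filter_upwards [eventually_gt_atTop (ns (J + 1)), hinf.eventually_gt_atTop 0] with n hn hpos
    -- locate n
    have hex : ∃ j, n ≤ ns (j + 2) := ⟨n, (hmono.id_le n).trans (hmono.monotone (show n ≤ n + 2 by omega))⟩
    set j := Nat.find hex with hj
    have hj1 : n ≤ ns (j + 2) := Nat.find_spec hex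
    have hjJ : J ≤ j := by
      by_contra hlt
      push Not at hlt
      have : ns (j + 2) ≤ ns (J + 1) := hmono.monotone (show j + 2 ≤ J + 1 by omega)
      omega
    have hj2 : ns (j + 1) < n := by
      rcases Nat.eq_zero_or_pos j with h0 | h0
      · have hJ0 : J = 0 := by omega
        rw [h0]
        rw [hJ0] at hn
        exact hn
      · have h1 := Nat.find_min hex (m := j - 1) (by omega)
        push Not at h1
        rw [show j - 1 + 2 = j + 1 by omega] at h1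
        exact h1
    have hle := wgt_union_le hh (A := D) (B := A (j + 2)) (C := A (j + 1)) (n := n)
      (b := ns (j + 1)) (c := ns j) hj2.le ((hmono (Nat.lt_succ_self j)).le.trans hj2.le) (by
        rintro i hi ⟨k, hk1, hk2, hk3⟩
        rcases lt_trichotomy k j with hkj | rfl | hkj
        · exact Or.inr (Or.inr (hk2.trans_le (hmono.monotone hkj)))
        · exact Or.inr (Or.inl ⟨hk2, hk3⟩)
        · have hk4 : k = j + 1 := by
            by_contra hne
            have h1 : ns (j + 2) ≤ ns k := hmono.monotone (show j + 2 ≤ k by omega)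
            omega
          subst hk4
          exact Or.inl hk3)
    have b1 : wgt h (A (j + 2)) n ≤ 2 / ((j + 1 + 1 + 1 : ℕ) : ℝ) * tot h n := by
      have := hx4 (j + 1) (ns j) n (by rw [← hns]; exact hj2.le)
      exact this
    have b2 : wgt h (A (j + 1)) (ns (j + 1)) ≤ 2 / ((j + 1 + 1 : ℕ) : ℝ) * tot h (ns (j + 1)) :=
      hx3 (j + 1) (ns j) (ns (j + 1)) (by rw [← hns])
    have b3 : (((j + 1 : ℕ) : ℝ) + 1) * tot h (ns j) ≤ tot h (ns (j + 1)) := by
      rw [hns]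
      exact hx5 (j + 1) (ns j)
    have b4 : tot h (ns (j + 1)) ≤ tot h n := tot_mono hh hj2.le
    push_cast at b1 b2 b3
    have hj0 : (0 : ℝ) < (j : ℝ) + 2 := by positivity
    have c1 : wgt h (A (j + 2)) n ≤ 2 / ((j : ℝ) + 2) * tot h n := by
      refine b1.trans (mul_le_mul_of_nonneg_right ?_ hpos.le)
      exact div_le_div_of_nonneg_left (by norm_num) hj0 (by linarith)
    have c2 : wgt h (A (j + 1)) (ns (j + 1)) ≤ 2 / ((j : ℝ) + 2) * tot h n := by
      refine b2.trans ?_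
      rw [show (j : ℝ) + 1 + 1 = j + 2 by ring]
      exact mul_le_mul_of_nonneg_left b4 (by positivity)
    have c3 : tot h (ns j) ≤ 1 / ((j : ℝ) + 2) * tot h n := by
      rw [div_mul_eq_mul_div, one_mul, le_div_iff₀ hj0]
      linarith
    have c4 : wgt h D n ≤ 5 / ((j : ℝ) + 2) * tot h n := by
      have : 5 / ((j : ℝ) + 2) * tot h n = 2 / ((j : ℝ) + 2) * tot h n +
        2 / ((j : ℝ) + 2) * tot h n + 1 / ((j : ℝ) + 2) * tot h n := by ring
      linarith
    rw [Real.dist_eq, sub_zero, abs_of_nonneg (div_nonneg (wgt_nonneg hh _ _) hpos.le),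
      div_lt_iff₀ hpos]
    refine c4.trans_lt (mul_lt_mul_of_pos_right ?_ hpos)
    rw [div_lt_iff₀ hj0]
    rw [div_lt_iff₀ hδ] at hJ
    have : (J : ℝ) ≤ j := by exact_mod_cast hjJ
    nlinarith
  -- the diagonal set is large
  have hlarge := hsub D hlight
  have hgpos : ∀ᶠ n in atTop, 0 < f (g n) := by
    filter_upwards [hg.eventually_ge_atTop 1] with n hn
    exact fpos _ (by exact_mod_cast hn)
  have hev := (hlarge.eventually (gt_mem_nhds hε)).and hgpos
  obtain ⟨n₀, hn₀⟩ := hev.exists_forall_of_atTop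
  obtain ⟨h1, h2⟩ := hn₀ (ns (n₀ + 1)) ((hmono.id_le n₀).trans (hmono.monotone (show n₀ ≤ n₀ + 1 by omega)))
  rw [div_lt_iff₀ h2] at h1
  set j := n₀
  set n := ns (j + 1) with hn
  have h3 : ε * f (g n) < f ((n : ℝ) / ((4 * (j + 1 + 1) : ℕ) : ℝ)) := by
    rw [hn, hns]
    exact hx2 (j + 1) (ns j)
  have h4 : 4 * (j + 1 + 1) * (ns j + 2) ≤ n := by
    rw [hn, hns]
    exact hx6 (j + 1) (ns j)
  have h5 : (n : ℝ) / ((4 * (j + 1 + 1) : ℕ) : ℝ) ≤ wgt (fun _ => 1) D n := by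
    have hcount : wgt (fun _ => 1) (A (j + 1)) n ≤ wgt (fun _ => 1) D n + 0 + tot (fun _ => 1) (ns j) := by
      have := wgt_union_le (h := fun _ => (1 : ℝ)) (fun _ => zero_le_one) (A := A (j + 1)) (B := D)
        (C := ∅) (n := n) (b := 0) (c := ns j) (Nat.zero_le _) (hmono (Nat.lt_succ_self j)).le (by
          intro i hi hiA
          by_cases hij : i < ns j
          · exact Or.inr (Or.inr hij)
          · exact Or.inl ⟨j, not_lt.1 hij, hi, hiA⟩)
      simpa [wgt] using this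
    have ht : tot (fun _ => (1 : ℝ)) (ns j) = ((ns j : ℕ) : ℝ) := by simp [tot]
    have hl := hA1 (j + 1) (n / (j + 1 + 1))
    have hm : wgt (fun _ => (1 : ℝ)) (A (j + 1)) ((j + 1 + 1) * (n / (j + 1 + 1))) ≤
        wgt (fun _ => 1) (A (j + 1)) n :=
      wgt_mono (fun _ => zero_le_one) _ (Nat.mul_div_le _ _)
    have hq : (n : ℝ) < ((n / (j + 1 + 1) : ℕ) + 1) * (j + 1 + 1) := by
      have := Nat.lt_mul_div_succ n (show 0 < j + 1 + 1 by omega)
      have h' : n < (n / (j + 1 + 1) + 1) * (j + 1 + 1) := by rw [mul_comm]; exact this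
      exact_mod_cast h'
    have h6 : ((4 * (j + 1 + 1) * (ns j + 2) : ℕ) : ℝ) ≤ n := by exact_mod_cast h4
    push_cast at h6 ⊢
    rw [div_le_iff₀ (by positivity)]
    rw [ht] at hcount
    have hns0 : (0 : ℝ) ≤ ((ns j : ℕ) : ℝ) := Nat.cast_nonneg _
    have hw0 : (0 : ℝ) ≤ (n / (j + 1 + 1) : ℕ) := Nat.cast_nonneg _
    have h7 : ((n / (j + 1 + 1) : ℕ) : ℝ) - ((ns j : ℕ) : ℝ) ≤ wgt (fun _ => 1) D n := by linarith
    have hj0 : (0 : ℝ) ≤ j := Nat.cast_nonneg _
    nlinarith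
  have h6 := fmono _ _ (by positivity) h5
  linarith

end Pool.Agent.Q302.EU
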