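import Pool.Agent.Q302.EU.Diag

/-! # From a modulus function to the identity -/

set_option autoImplicit false

open Set Topology Filter

namespace Pool.Agent.Q302.EU

section Mod

variable {f : ℝ → ℝ} (fpos : ∀ x, 0 < x → 0 < f x) (fmono : ∀ x y, 0 ≤ x → x ≤ y → f x ≤ f y)
  (fsub : ∀ x y, 0 ≤ x → 0 ≤ y → f (x + y) ≤ f x + f y) (f0 : f 0 = 0)

include fsub f0 in
theorem f_nat_mul (k : ℕ) {x : ℝ} (hx : 0 ≤ x) : f (k * x) ≤ k * f x := by
  induction k with
  | zero => simp [f0]
  | succ k ih =>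
    push_cast
    rw [add_mul, one_mul, add_mul, one_mul]
    exact (fsub _ _ (by positivity) hx).trans (by linarith)

include fpos fmono fsub f0

theorem f_nonneg {x : ℝ} (hx : 0 ≤ x) : 0 ≤ f x := by
  have := fmono 0 x le_rfl hx
  rwa [f0] at this

theorem f_two {a n : ℝ} (ha : 0 ≤ a) (han : a ≤ n) : a * f n ≤ 2 * n * f a := by
  rcases ha.eq_or_lt with rfl | ha'
  · rw [f0]; simp
  · have h1 : n ≤ (⌈n / a⌉₊ : ℝ) * a := by
      rw [← div_le_iff₀ ha']
      exact Nat.le_ceil _
    have hn : 0 ≤ n := ha.trans han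
    have h2 : f n ≤ (⌈n / a⌉₊ : ℝ) * f a := (fmono _ _ hn h1).trans (f_nat_mul fsub f0 _ ha)
    have h3 : (⌈n / a⌉₊ : ℝ) < n / a + 1 := Nat.ceil_lt_add_one (by positivity)
    have h4 : 0 < f a := fpos a ha'
    have h5 : a * (n / a + 1) = n + a := by field_simp
    calc a * f n ≤ a * ((⌈n / a⌉₊ : ℝ) * f a) := mul_le_mul_of_nonneg_left h2 ha
      _ ≤ a * ((n / a + 1) * f a) := by gcongr
      _ = (n + a) * f a := by rw [← mul_assoc, h5]
      _ ≤ 2 * n * f a := by nlinarith

/-- **Reduction to the identity.** -/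
theorem reduction {g : ℕ → ℕ} (gmono : Monotone g) (ginf : Tendsto g atTop atTop)
    (gH : ¬ Tendsto (fun n : ℕ => (n : ℝ) / g n) atTop (𝓝 0))
    (hstar : ∀ ε > 0, ∃ N : ℕ, 1 ≤ N ∧ ∀ᶠ n : ℕ in atTop, f (n / N) ≤ ε * f (g n)) :
    ∃ g' : ℕ → ℕ, Monotone g' ∧ Tendsto g' atTop atTop ∧
      ¬ Tendsto (fun n : ℕ => (n : ℝ) / g' n) atTop (𝓝 0) ∧
      ∀ c : ℕ → ℝ, (∀ n, 0 ≤ c n ∧ c n ≤ n) →
        (Tendsto (fun n => c n / g' n) atTop (𝓝 0) ↔
          Tendsto (fun n => f (c n) / f (g n)) atTop (𝓝 0)) := by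
  have fnn : ∀ {x : ℝ}, 0 ≤ x → 0 ≤ f x := fun hx => f_nonneg fpos fmono fsub f0 hx
  set r : ℕ → ℝ := fun n => n * f (g n) / f n with hr
  have hr0 : ∀ n, 0 ≤ r n := fun n =>
    div_nonneg (mul_nonneg (Nat.cast_nonneg _) (fnn (Nat.cast_nonneg _))) (fnn (Nat.cast_nonneg _))
  set g' : ℕ → ℕ := fun n => (Finset.range (n + 1)).sup fun m => ⌈r m⌉₊ with hg'
  have hfn : ∀ n : ℕ, 1 ≤ n → 0 < f n := fun n hn => fpos _ (by exact_mod_cast hn)
  -- comparison of the terms
  have hr2 : ∀ m n : ℕ, m ≤ n → 1 ≤ n → r m ≤ 2 * r n := by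
    intro m n hmn hn
    rcases Nat.eq_zero_or_pos m with rfl | hm
    · have : r 0 = 0 := by simp [hr]
      rw [this]
      exact mul_nonneg zero_le_two (hr0 n)
    · have h1 := f_two fpos fmono fsub f0 (Nat.cast_nonneg m) (show (m : ℝ) ≤ n by exact_mod_cast hmn)
      have h2 : f (g m) ≤ f (g n) :=
        fmono _ _ (Nat.cast_nonneg _) (by exact_mod_cast gmono hmn)
      have h3 := hfn m hm
      have h4 := hfn n hn
      have h5 : 0 ≤ f (g m) := fnn (Nat.cast_nonneg _)
      change m * f (g m) / f m ≤ 2 * (n * f (g n) / f n)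
      rw [← mul_div_assoc, div_le_div_iff₀ h3 h4]
      calc (m : ℝ) * f (g m) * f n = (m * f n) * f (g m) := by ring
        _ ≤ (2 * n * f m) * f (g n) := mul_le_mul h1 h2 h5 (by positivity)
        _ = 2 * (n * f (g n)) * f m := by ring
  have hlow : ∀ n, r n ≤ g' n := by
    intro n
    have h1 : ⌈r n⌉₊ ≤ g' n :=
      Finset.le_sup (f := fun m => ⌈r m⌉₊) (Finset.mem_range.2 (Nat.lt_succ_self n))
    exact (Nat.le_ceil _).trans (by exact_mod_cast h1)
  have hup : ∀ n, 1 ≤ n → (g' n : ℝ) ≤ 2 * r n + 1 := by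
    intro n hn
    have h1 : g' n ≤ ⌈2 * r n⌉₊ := Finset.sup_le fun m hm =>
      Nat.ceil_mono (hr2 m n (Nat.lt_succ_iff.1 (Finset.mem_range.1 hm)) hn)
    have h2 : (⌈2 * r n⌉₊ : ℝ) < 2 * r n + 1 :=
      Nat.ceil_lt_add_one (mul_nonneg zero_le_two (hr0 n))
    have h3 : (g' n : ℝ) ≤ (⌈2 * r n⌉₊ : ℝ) := by exact_mod_cast h1
    linarith
  -- growth
  obtain ⟨N, hN, hNev⟩ := hstar 1 one_pos
  have hNR : (0 : ℝ) < N := by exact_mod_cast hN
  have hrN : ∀ᶠ n : ℕ in atTop, (n : ℝ) / N ≤ r n := by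
    filter_upwards [hNev, eventually_ge_atTop 1] with n hn hn1
    have h1 : f n ≤ N * f (g n) := by
      have h2 := f_nat_mul fsub f0 N (x := (n : ℝ) / N) (by positivity)
      rw [mul_div_cancel₀ _ hNR.ne'] at h2
      rw [one_mul] at hn
      exact h2.trans (mul_le_mul_of_nonneg_left hn hNR.le)
    have h3 := hfn n hn1
    change (n : ℝ) / N ≤ n * f (g n) / f n
    rw [div_le_div_iff₀ hNR h3]
    have : (0 : ℝ) ≤ n := Nat.cast_nonneg _
    nlinarith
  have hrinf : Tendsto r atTop atTop :=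
    tendsto_atTop_mono' _ hrN (tendsto_natCast_atTop_atTop.atTop_div_const hNR)
  have hg'inf : Tendsto g' atTop atTop := by
    rw [← tendsto_natCast_atTop_iff (R := ℝ)]
    exact tendsto_atTop_mono hlow hrinf
  have hr1 : ∀ᶠ n in atTop, 1 ≤ r n := hrinf.eventually_ge_atTop 1
  have hgpos : ∀ᶠ n in atTop, 0 < f (g n) := by
    filter_upwards [ginf.eventually_ge_atTop 1] with n hn
    exact hfn _ hn
  refine ⟨g', fun m n hmn => Finset.sup_mono (Finset.range_mono (by omega)), hg'inf, ?_, ?_⟩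
  · -- not too large
    intro hcon
    apply gH
    rw [Metric.tendsto_nhds] at hcon ⊢
    intro ε hε
    -- an integer with 1 / k small
    obtain ⟨k, hk⟩ := exists_nat_gt (1 / ε)
    have hk0 : (0 : ℝ) < k := lt_trans (by positivity) hk
    filter_upwards [hcon (1 / (4 * k)) (by positivity), hr1, eventually_ge_atTop 1, hgpos,
      hg'inf.eventually_ge_atTop 1] with n h1 h2 h3 h4 h5
    have hg'0 : (0 : ℝ) < g' n := by exact_mod_cast h5
    have hn0 : (0 : ℝ) < n := by exact_mod_cast h3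
    rw [Real.dist_eq, sub_zero, abs_of_nonneg (by positivity), div_lt_div_iff₀ hg'0 (by positivity)]
      at h1
    -- so r n > k n
    have h6 : (k : ℝ) * n < r n := by
      have := hup n h3
      nlinarith
    have h7 : (k : ℝ) * f n < f (g n) := by
      have h8 := hfn n h3
      change (k : ℝ) * n < n * f (g n) / f n at h6
      rw [lt_div_iff₀ h8] at h6
      have h9 : (n : ℝ) * (k * f n) < n * f (g n) := by linarith
      exact lt_of_mul_lt_mul_left h9 hn0.le
    have h8 : (k : ℝ) * n < g n := by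
      by_contra hno
      push Not at hno
      have := (fmono _ _ (Nat.cast_nonneg _) hno).trans (f_nat_mul fsub f0 k hn0.le)
      linarith
    rw [Real.dist_eq, sub_zero, abs_of_nonneg (by positivity)]
    have hg0 : (0 : ℝ) < g n := lt_trans (by positivity) h8
    rw [div_lt_iff₀ hg0]
    rw [div_lt_iff₀ hε] at hk
    nlinarith
  · intro c hc
    constructor
    · intro hcon
      rw [Metric.tendsto_nhds] at hcon ⊢
      intro ε hε
      obtain ⟨M, hM, hMev⟩ := hstar (ε / 2) (by positivity)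
      have hMR : (0 : ℝ) < M := by exact_mod_cast hM
      filter_upwards [hcon (ε / (8 * M)) (by positivity), hr1, eventually_ge_atTop 1, hgpos,
        hg'inf.eventually_ge_atTop 1, hMev] with n h1 h2 h3 h4 h5 h6
      have hg'0 : (0 : ℝ) < g' n := by exact_mod_cast h5
      have hn0 : (0 : ℝ) < n := by exact_mod_cast h3
      have hcn := hc n
      rw [Real.dist_eq, sub_zero, abs_of_nonneg (div_nonneg hcn.1 hg'0.le), div_lt_iff₀ hg'0] at h1
      rw [Real.dist_eq, sub_zero, abs_of_nonneg (div_nonneg (fnn hcn.1) h4.le), div_lt_iff₀ h4]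
      by_cases h7 : c n ≤ n / M
      · have := fmono _ _ hcn.1 h7
        nlinarith
      · push Not at h7
        -- then f n is small
        rw [div_lt_iff₀ hMR] at h7
        have h8 := hup n h3
        have h9 : (n : ℝ) < ε / 2 * r n := by
          have h10 : (g' n : ℝ) ≤ 3 * r n := by linarith
          have h11 : c n < ε / (8 * M) * (3 * r n) :=
            h1.trans_le (mul_le_mul_of_nonneg_left h10 (by positivity))
          have h12 : ε / (8 * M) * (3 * r n) * M = 3 / 8 * ε * r n := by field_simp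
          have h13 : c n * M < ε / (8 * M) * (3 * r n) * M := mul_lt_mul_of_pos_right h11 hMR
          rw [h12] at h13
          have h14 : 0 < ε * r n := by positivity
          nlinarith
        have h10 := hfn n h3
        change (n : ℝ) < ε / 2 * (n * f (g n) / f n) at h9
        have h11 : f n < ε / 2 * f (g n) := by
          rw [← mul_div_assoc, lt_div_iff₀ h10] at h9
          have : (n : ℝ) * f n < n * (ε / 2 * f (g n)) := by linarith
          exact lt_of_mul_lt_mul_left this hn0.le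
        have h12 := fmono _ _ hcn.1 hcn.2
        nlinarith
    · intro hcon
      rw [Metric.tendsto_nhds] at hcon ⊢
      intro ε hε
      filter_upwards [hcon (ε / 2) (by positivity), hr1, eventually_ge_atTop 1, hgpos,
        hg'inf.eventually_ge_atTop 1] with n h1 h2 h3 h4 h5
      have hg'0 : (0 : ℝ) < g' n := by exact_mod_cast h5
      have hn0 : (0 : ℝ) < n := by exact_mod_cast h3
      have hcn := hc n
      rw [Real.dist_eq, sub_zero, abs_of_nonneg (div_nonneg (fnn hcn.1) h4.le), div_lt_iff₀ h4] at h1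
      rw [Real.dist_eq, sub_zero, abs_of_nonneg (div_nonneg hcn.1 hg'0.le), div_lt_iff₀ hg'0]
      have h6 := f_two fpos fmono fsub f0 hcn.1 hcn.2
      have h7 := hfn n h3
      -- c n ≤ 2 n f (c n) / f n < ε n f (g n) / f n = ε r n
      have h8 : c n < ε * r n := by
        change c n < ε * (n * f (g n) / f n)
        rw [← mul_div_assoc, lt_div_iff₀ h7]
        nlinarith
      have h9 := hlow n
      nlinarith

end Mod

end Pool.Agent.Q302.EU
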