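import Mathlib

/-! # Light sets which are large -/

set_option autoImplicit false

open Set Topology Filter

namespace Pool.Agent.Q302.EU

/-- The weight of `A` below `n`. -/
noncomputable def wgt (h : ℕ → ℝ) (A : Set ℕ) (n : ℕ) : ℝ :=
  ∑ i ∈ Finset.range n, A.indicator h i

/-- The total weight below `n`. -/
noncomputable def tot (h : ℕ → ℝ) (n : ℕ) : ℝ := ∑ i ∈ Finset.range n, h i

theorem tot_mono {h : ℕ → ℝ} (hh : ∀ i, 0 ≤ h i) : Monotone (tot h) := fun _ _ hmn =>
  Finset.sum_le_sum_of_subset_of_nonneg (Finset.range_mono hmn) fun i _ _ => hh i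

theorem wgt_le_tot {h : ℕ → ℝ} (hh : ∀ i, 0 ≤ h i) (A : Set ℕ) (n : ℕ) :
    wgt h A n ≤ tot h n :=
  Finset.sum_le_sum fun i _ => Set.indicator_le_self' (fun _ _ => hh _) i

theorem wgt_nonneg {h : ℕ → ℝ} (hh : ∀ i, 0 ≤ h i) (A : Set ℕ) (n : ℕ) : 0 ≤ wgt h A n :=
  Finset.sum_nonneg fun _ _ => Set.indicator_nonneg (fun _ _ => hh _) _

theorem wgt_mono {h : ℕ → ℝ} (hh : ∀ i, 0 ≤ h i) (A : Set ℕ) : Monotone (wgt h A) :=
  fun _ _ hmn => Finset.sum_le_sum_of_subset_of_nonneg (Finset.range_mono hmn) fun _ _ _ =>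
    Set.indicator_nonneg (fun _ _ => hh _) _

theorem wgt_le_of_subset {h : ℕ → ℝ} (hh : ∀ i, 0 ≤ h i) {A B : Set ℕ} {n : ℕ}
    (hAB : ∀ i < n, i ∈ A → i ∈ B) : wgt h A n ≤ wgt h B n := by
  classical
  refine Finset.sum_le_sum fun i hi => ?_
  rw [Set.indicator_apply, Set.indicator_apply]
  split_ifs with h1 h2 h2
  · exact le_rfl
  · exact (h2 (hAB i (Finset.mem_range.1 hi) h1)).elim
  · exact hh i
  · exact le_rfl

/-- The picked set. -/
def pick (M : ℕ) (p : ℕ → ℕ) : Set ℕ := {i | p (i / M) = i}

theorem sum_group {M : ℕ} (hM : 0 < M) {p : ℕ → ℕ} (hp : ∀ l, M * l ≤ p l ∧ p l < M * (l + 1))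
    (w : ℕ → ℝ) (l : ℕ) : ∑ r ∈ Finset.range M, (pick M p).indicator w (M * l + r) = w (p l) := by
  classical
  obtain ⟨h1, h2⟩ := hp l
  have h3 : p l - M * l < M := by rw [mul_add] at h2; omega
  rw [Finset.sum_eq_single (p l - M * l)]
  · rw [Set.indicator_apply, if_pos]
    · congr 1; omega
    · change p ((M * l + (p l - M * l)) / M) = _
      have : (M * l + (p l - M * l)) / M = l := by
        rw [Nat.mul_add_div hM, Nat.div_eq_of_lt h3, add_zero]
      rw [this]
      omega
  · intro r hr hne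
    rw [Set.indicator_apply, if_neg]
    intro hmem
    have h4 : (M * l + r) / M = l := by
      rw [Nat.mul_add_div hM, Nat.div_eq_of_lt (Finset.mem_range.1 hr), add_zero]
    have h5 : p ((M * l + r) / M) = M * l + r := hmem
    rw [h4] at h5
    omega
  · intro h4
    exact (h4 (Finset.mem_range.2 h3)).elim

theorem wgt_block {M : ℕ} (hM : 0 < M) {p : ℕ → ℕ} (hp : ∀ l, M * l ≤ p l ∧ p l < M * (l + 1))
    (w : ℕ → ℝ) (l : ℕ) : wgt w (pick M p) (M * l) = ∑ k ∈ Finset.range l, w (p k) := by
  induction l with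
  | zero => simp [wgt]
  | succ l ih =>
    rw [Finset.sum_range_succ, ← ih, ← sum_group hM hp w l, wgt, wgt, mul_add, mul_one,
      Finset.sum_range_add]

/-- **Light sets which are large.** -/
theorem exists_pick {h : ℕ → ℝ} (hh : ∀ i, 0 ≤ h i) (hinf : Tendsto (tot h) atTop atTop)
    (hsm : Tendsto (fun n => h n / tot h (n + 1)) atTop (𝓝 0)) (M : ℕ) (hM : 0 < M) :
    ∃ A : Set ℕ, (∀ l : ℕ, (l : ℝ) ≤ wgt (fun _ => 1) A (M * l)) ∧
      ∀ᶠ n in atTop, wgt h A n ≤ 2 / M * tot h n := by
  classical
  have hMR : (0 : ℝ) < M := by exact_mod_cast hM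
  -- the lightest elements
  have hex : ∀ l, ∃ i, (M * l ≤ i ∧ i < M * (l + 1)) ∧
      ∀ j, M * l ≤ j → j < M * (l + 1) → h i ≤ h j := by
    intro l
    obtain ⟨i, hi, hmin⟩ := Finset.exists_min_image (Finset.Ico (M * l) (M * (l + 1))) h
      ⟨M * l, Finset.mem_Ico.2 ⟨le_rfl, by rw [mul_add]; omega⟩⟩
    exact ⟨i, Finset.mem_Ico.1 hi, fun j h1 h2 => hmin j (Finset.mem_Ico.2 ⟨h1, h2⟩)⟩
  choose p hp hmin using hex
  refine ⟨pick M p, fun l => ?_, ?_⟩
  · rw [wgt_block hM hp]
    simp
  · -- the blocks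
    have hblock : ∀ l, ∑ k ∈ Finset.range l, h (p k) ≤ tot h (M * l) / M := by
      intro l
      induction l with
      | zero => simp [tot]
      | succ l ih =>
        rw [Finset.sum_range_succ, tot, mul_add, mul_one, Finset.sum_range_add, add_div]
        refine add_le_add ih ?_
        rw [le_div_iff₀ hMR]
        have h1 : ∑ r ∈ Finset.range M, h (p l) ≤ ∑ r ∈ Finset.range M, h (M * l + r) :=
          Finset.sum_le_sum fun r hr => hmin l _ (Nat.le_add_right _ _) (by
            rw [mul_add, mul_one]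
            have := Finset.mem_range.1 hr
            omega)
        rw [Finset.sum_const, Finset.card_range, nsmul_eq_mul] at h1
        linarith
    have hev : ∀ᶠ n in atTop, h n / tot h (n + 1) < 1 / M :=
      hsm.eventually (gt_mem_nhds (by positivity))
    have hpos : ∀ᶠ n in atTop, 0 < tot h n := hinf.eventually_gt_atTop 0
    obtain ⟨n₀, hn₀⟩ := (hev.and hpos).exists_forall_of_atTop
    filter_upwards [eventually_ge_atTop (n₀ + M)] with n hn
    set l := n / M with hl
    have hn1 : M * l ≤ n := Nat.mul_div_le n M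
    have hn2 : n < M * (l + 1) := by rw [mul_add, mul_one]; exact Nat.lt_mul_div_succ n hM |>.trans_eq (by rw [hl]; ring)
    have h1 : wgt h (pick M p) n = wgt h (pick M p) (M * l) +
        ∑ r ∈ Finset.range (n - M * l), (pick M p).indicator h (M * l + r) := by
      have : n = M * l + (n - M * l) := by omega
      conv_lhs => rw [this]
      rw [wgt, Finset.sum_range_add]
      rfl
    have h2 : ∑ r ∈ Finset.range (n - M * l), (pick M p).indicator h (M * l + r) ≤
        tot h n / M := by
      by_cases hpn : p l < n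
      · have h3 : ∑ r ∈ Finset.range (n - M * l), (pick M p).indicator h (M * l + r) ≤
            ∑ r ∈ Finset.range M, (pick M p).indicator h (M * l + r) :=
          Finset.sum_le_sum_of_subset_of_nonneg (Finset.range_mono (by
            rw [mul_add] at hn2; omega)) fun _ _ _ => Set.indicator_nonneg (fun _ _ => hh _) _
        rw [sum_group hM hp] at h3
        have h4 : n₀ ≤ p l := by
          have := (hp l).1
          rw [mul_add] at hn2
          omega
        have h5 := (hn₀ (p l) h4).1
        have h6 : 0 < tot h (p l + 1) := (hn₀ (p l + 1) (by omega)).2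
        rw [div_lt_iff₀ h6] at h5
        have h7 : tot h (p l + 1) ≤ tot h n := tot_mono hh hpn
        calc _ ≤ h (p l) := h3
          _ ≤ 1 / M * tot h (p l + 1) := h5.le
          _ ≤ 1 / M * tot h n := mul_le_mul_of_nonneg_left h7 (by positivity)
          _ = tot h n / M := by ring
      · have h3 : ∑ r ∈ Finset.range (n - M * l), (pick M p).indicator h (M * l + r) = 0 := by
          refine Finset.sum_eq_zero fun r hr => ?_
          rw [Set.indicator_apply, if_neg]
          intro hmem
          have hr' := Finset.mem_range.1 hr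
          have h4 : (M * l + r) / M = l := by
            rw [Nat.mul_add_div hM, Nat.div_eq_of_lt (by rw [mul_add] at hn2; omega), add_zero]
          have h5 : p ((M * l + r) / M) = M * l + r := hmem
          rw [h4] at h5
          omega
        rw [h3]
        exact div_nonneg (hn₀ n (by omega)).2.le hMR.le
    rw [h1, wgt_block hM hp]
    have h3 := hblock l
    have h4 : tot h (M * l) ≤ tot h n := tot_mono hh hn1
    have h5 : tot h (M * l) / M ≤ tot h n / M := div_le_div_of_nonneg_right h4 hMR.le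
    calc _ ≤ tot h n / M + tot h n / M := add_le_add (h3.trans h5) h2
      _ = 2 / M * tot h n := by ring

end Pool.Agent.Q302.EU
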